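import Mathlib

/-!
# MP_5d03ee_an: Schild's ratio `d*/d` for starlike functions, definitions
-/

namespace Pool.Agent.SchildOwn

open Metric Set

/-- The class `S*`: the functions which are analytic and univalent in the unit disc, with `f(0) = 0`
and `f'(0) = 1`, whose image is starlike with respect to `0`. -/
structure IsStarlike (f : ℂ → ℂ) : Prop where
  analytic : AnalyticOnNhd ℂ f (ball 0 1)
  univalent : InjOn f (ball 0 1)
  map_zero : f 0 = 0
  deriv_zero : deriv f 0 = 1
  starlike : StarConvex ℝ (0 : ℂ) (f '' ball 0 1)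

/-- The radius of convexity `r₁(f)`: the supremum of the `r` for which `f(|z| < r)` is convex. -/
noncomputable def r₁ (f : ℂ → ℂ) : ℝ := sSup {r : ℝ | 0 < r ∧ r ≤ 1 ∧ Convex ℝ (f '' ball 0 r)}

/-- `d*(f)`: the minimum of `|f(z)|` on the circle `|z| = r₁(f)`. If `r₁(f) = 1`, i.e. `f` is convex,
then `|z| = r₁(f)` is mapped to the boundary of the image, and `d*(f)` is the minimum of the absolute
value on the boundary of the image. -/
noncomputable def dStar (f : ℂ → ℂ) : ℝ :=
  if r₁ f < 1 then sInf ((fun z => ‖f z‖) '' sphere 0 (r₁ f))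
  else sInf ((fun w => ‖w‖) '' frontier (f '' ball 0 1))

/-- `d(f)`: the distance from `0` to the nearest value which is omitted by `f`. -/
noncomputable def dOmit (f : ℂ → ℂ) : ℝ := sInf ((fun β => ‖β‖) '' (f '' ball 0 1)ᶜ)

/-- The ratio `d*(f)/d(f)`. -/
noncomputable def ratio (f : ℂ → ℂ) : ℝ := dStar f / dOmit f

/-- `R(z) = (1 + 2 a z + z²)^(1/2)`, `a = 2 b² - 1`. -/
noncomputable def R (b : ℝ) (z : ℂ) : ℂ := (1 + 2 * (2 * (b : ℂ) ^ 2 - 1) * z + z ^ 2) ^ (1 / 2 : ℂ)

/-- The base of the first power in `g_a`. -/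
noncomputable def base₁ (b : ℝ) (z : ℂ) : ℂ := (R b z + b * (1 + z)) / ((1 + b) * (1 - z))

/-- The base of the second power in `g_a`. -/
noncomputable def base₂ (b : ℝ) (z : ℂ) : ℂ := 2 / (R b z + 1 + z)

/-- Suffridge's function `g_a`, `a = 2 b² - 1`. -/
noncomputable def suffridge (b : ℝ) (z : ℂ) : ℂ := z * base₁ b z ^ (2 * b : ℂ) * base₂ b z ^ 2

end Pool.Agent.SchildOwn
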