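import Pool.Agent.SchildOwn.Defs
import Pool.Agent.Lib_helper46.Schild.Final

/-!
# MP_5d03ee_an: comparison with the library of helper46
-/

set_option autoImplicit false

namespace Pool.Agent.SchildOwn

open Metric Set
open Pool.Agent.Lib_helper46.Schild

variable {h : ℂ → ℂ}

theorem dOmit_eq (f : ℂ → ℂ) : dOmit f = infDist (0 : ℂ) (f '' ball 0 1)ᶜ := by
  unfold dOmit
  rw [infDist_eq_iInf, sInf_image']
  simp only [dist_zero_left]

theorem frontier_eq (H : Good h) {r : ℝ} (hr : 0 < r) (hr1 : r < 1) :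
    frontier (fh h '' ball 0 r) = fh h '' sphere 0 r := by
  apply Subset.antisymm (H.frontier_ball hr1)
  rintro _ ⟨z, hz, rfl⟩
  have hnorm : ‖z‖ = r := by simpa using hz
  have hmem1 : z ∈ ball (0:ℂ) 1 := by rw [mem_ball_zero_iff, hnorm]; exact hr1
  constructor
  · have hcl : z ∈ closure (ball (0:ℂ) r) := by
      rw [closure_ball _ hr.ne', mem_closedBall_zero_iff, hnorm]
    have hca : ContinuousWithinAt (fh h) (ball (0:ℂ) r) z :=
      (H.hasDerivAt_fh hmem1).continuousAt.continuousWithinAt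
    exact hca.mem_closure_image hcl
  · have hop : IsOpen (fh h '' ball 0 r) := H.isOpen_image isOpen_ball (ball_subset_ball hr1.le)
    rw [hop.interior_eq]
    rintro ⟨w, hw, hzz⟩
    have := H.injOn (ball_subset_ball hr1.le hw) hmem1 hzz
    rw [this, mem_ball_zero_iff, hnorm] at hw
    exact lt_irrefl _ hw

theorem ratio_eq (H : Good h) : ratio (fh h) = rho (fh h) := by
  rw [rho_eq, ratio, dOmit_eq]
  congr 1
  have hr : r₁ (fh h) = rad (fh h) := rfl
  unfold dStar
  rw [hr]
  by_cases h1 : rad (fh h) < 1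
  · rw [if_pos h1]
    rcases (rad_nonneg (fh h)).lt_or_eq with hpos | hzero
    · rw [frontier_eq H hpos h1, image_image]
    · rw [← hzero, ball_zero, image_empty, frontier_empty, image_empty, Real.sInf_empty,
        sphere_zero, image_singleton, fh_zero, norm_zero, csInf_singleton]
  · rw [if_neg h1]
    have h2 : rad (fh h) = 1 := le_antisymm (rad_le_one _) (not_lt.1 h1)
    rw [h2]

theorem isStarlike (H : Good h) (h0 : h 0 = 0) : IsStarlike (fh h) where
  analytic := H.differentiableOn_fh.analyticOnNhd isOpen_ball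
  univalent := H.injOn
  map_zero := fh_zero
  deriv_zero := by
    have hz : (0:ℂ) ∈ ball (0:ℂ) 1 := by simp
    rw [(H.hasDerivAt_fh hz).deriv, h0]
    simp [ph]
  starlike := H.starConvex le_rfl

/-! ### the functions only matter on the disc -/

theorem image_eq {f g : ℂ → ℂ} (hfg : EqOn f g (ball 0 1)) {r : ℝ} (hr : r ≤ 1) :
    f '' ball 0 r = g '' ball 0 r :=
  image_congr fun z hz => hfg (ball_subset_ball hr hz)

theorem r₁_congr {f g : ℂ → ℂ} (hfg : EqOn f g (ball 0 1)) : r₁ f = r₁ g := by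
  unfold r₁
  congr 1
  ext r
  constructor
  · rintro ⟨h0, h1, h2⟩
    exact ⟨h0, h1, by rwa [← image_eq hfg h1]⟩
  · rintro ⟨h0, h1, h2⟩
    exact ⟨h0, h1, by rwa [image_eq hfg h1]⟩

theorem ratio_congr {f g : ℂ → ℂ} (hfg : EqOn f g (ball 0 1)) : ratio f = ratio g := by
  unfold ratio dStar dOmit
  rw [r₁_congr hfg, image_eq hfg le_rfl]
  by_cases h1 : r₁ g < 1
  · rw [if_pos h1, if_pos h1]
    have : (fun z => ‖f z‖) '' sphere 0 (r₁ g) = (fun z => ‖g z‖) '' sphere 0 (r₁ g) := by
      apply image_congr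
      intro z hz
      have : z ∈ ball (0:ℂ) 1 := by
        rw [mem_ball_zero_iff, mem_sphere_zero_iff_norm.1 hz]; exact h1
      rw [hfg this]
    rw [this]
  · rw [if_neg h1, if_neg h1]

theorem isStarlike_congr {f g : ℂ → ℂ} (hfg : EqOn f g (ball 0 1)) (hg : IsStarlike g) :
    IsStarlike f where
  analytic := by
    intro z hz
    refine (hg.analytic z hz).congr ?_
    filter_upwards [isOpen_ball.mem_nhds hz] with w hw
    exact (hfg hw).symm
  univalent := hg.univalent.congr hfg.symm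
  map_zero := by rw [hfg (by simp)]; exact hg.map_zero
  deriv_zero := by
    rw [← hg.deriv_zero]
    apply Filter.EventuallyEq.deriv_eq
    filter_upwards [isOpen_ball.mem_nhds (by simp : (0:ℂ) ∈ ball (0:ℂ) 1)] with w hw
    exact hfg hw
  starlike := by rw [image_eq hfg le_rfl]; exact hg.starlike

/-! ### Suffridge's functions -/

section S

variable {b : ℝ}

theorem base₁_eq {z : ℂ} : base₁ b z = Ab b z := by
  unfold base₁ Pool.Agent.Lib_helper46.Schild.Ab
  change (Rb b z + b * (1 + z)) / ((1 + b) * (1 - z)) = _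
  rw [← mul_div_assoc, ← add_div, div_div, mul_comm (1 - z)]

theorem base₂_eq {z : ℂ} : base₂ b z = Bb b z := rfl

theorem sdata (hb0 : 0 ≤ b) (hb1 : b ≤ 1) :
    SData b (fun z => Complex.log (Ab b z)) (fun z => Complex.log (Bb b z)) where
  b0 := hb0
  b1 := hb1
  cL := by
    intro z hz
    exact ((Ab_hasDerivAt hb0 hb1 hz).continuousAt.clog
      (Or.inl (Ab_re_pos hb0 hb1 hz))).continuousWithinAt
  cM := by
    intro z hz
    exact ((Bb_hasDerivAt hb0 hb1 hz).continuousAt.clog
      (Or.inl (Bb_re_pos hb0 hb1 hz))).continuousWithinAt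
  L0 := by
    have h1 : Rb b 0 = 1 := by simp [Rb]
    have h2 : (1 + (b:ℂ)) ≠ 0 := by
      have : (1 + (b:ℂ)) = ((1 + b : ℝ) : ℂ) := by push_cast; rfl
      rw [this]
      exact_mod_cast (by linarith : (1 + b) ≠ 0)
    have h3 : Ab b 0 = 1 := by
      unfold Pool.Agent.Lib_helper46.Schild.Ab
      rw [h1]
      simp [h2]
    change Complex.log (Ab b 0) = 0
    rw [h3, Complex.log_one]
  M0 := by
    have h1 : Rb b 0 = 1 := by simp [Rb]
    have h3 : Bb b 0 = 1 := by
      unfold Bb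
      rw [h1]; norm_num
    change Complex.log (Bb b 0) = 0
    rw [h3, Complex.log_one]
  eL := by
    intro z hz
    apply Complex.exp_log
    intro h0
    have := Ab_re_pos hb0 hb1 hz
    rw [h0] at this
    simp at this
  eM := by
    intro z hz
    apply Complex.exp_log
    intro h0
    have := Bb_re_pos hb0 hb1 hz
    rw [h0] at this
    simp at this

theorem suffridge_eqOn (hb0 : 0 ≤ b) (hb1 : b ≤ 1) : EqOn (suffridge b)
    (fh (hS b (fun z => Complex.log (Ab b z)) (fun z => Complex.log (Bb b z)))) (ball 0 1) := by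
  intro z hz
  have hA : Ab b z ≠ 0 := by
    intro h0
    have := Ab_re_pos hb0 hb1 hz
    rw [h0] at this
    simp at this
  have hB : Bb b z ≠ 0 := by
    intro h0
    have := Bb_re_pos hb0 hb1 hz
    rw [h0] at this
    simp at this
  unfold suffridge fh hS
  rw [base₁_eq, base₂_eq, Complex.cpow_def_of_ne_zero hA, Complex.exp_add, mul_assoc]
  congr 2
  · rw [mul_comm]
  · rw [two_mul, Complex.exp_add, Complex.exp_log hB, pow_two]

theorem suffridge_spec (hb0 : 0 ≤ b) (hb1 : b ≤ 1) :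
    IsStarlike (suffridge b) ∧ Real.exp (-0.484) ≤ ratio (suffridge b) := by
  have e := suffridge_eqOn hb0 hb1
  have S := sdata hb0 hb1
  refine ⟨isStarlike_congr e (isStarlike S.good ?_), ?_⟩
  · have h1 := S.L0
    have h2 := S.M0
    change 2 * (b:ℂ) * Complex.log (Ab b 0) + 2 * Complex.log (Bb b 0) = 0
    change Complex.log (Ab b 0) = 0 at h1
    change Complex.log (Bb b 0) = 0 at h2
    rw [h1, h2, mul_zero, mul_zero, add_zero]
  · rw [ratio_congr e, ratio_eq S.good]
    exact family_bound S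

end S

theorem exp_bd : (0.6163 : ℝ) < Real.exp (-0.484) := by
  have h1 : Real.exp 0.484 * Real.exp (-0.484) = 1 := by
    rw [← Real.exp_add]; simp
  have h2 : Real.exp 0.121 ≤ 1.12863 := by
    have := Real.exp_bound' (x := 0.121) (by norm_num) (by norm_num) (n := 6) (by norm_num)
    refine this.trans ?_
    norm_num [Finset.sum_range_succ, Nat.factorial]
  have h3 : Real.exp 0.484 = Real.exp 0.121 ^ 4 := by
    rw [← Real.exp_nat_mul]; norm_num
  have h4 : Real.exp 0.484 < 1 / 0.6163 := by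
    rw [h3]
    refine lt_of_le_of_lt (pow_le_pow_left₀ (Real.exp_pos _).le h2 4) ?_
    norm_num
  have h5 := Real.exp_pos (-0.484)
  by_contra hcon
  push Not at hcon
  have h7 : Real.exp 0.484 * Real.exp (-0.484) < 1 / 0.6163 * 0.6163 := by
    apply mul_lt_mul h4 hcon h5 (by norm_num)
  rw [h1] at h7
  norm_num at h7

/-- the counterexample -/
theorem example_spec : ∃ f, IsStarlike f ∧ r₁ f < 1 ∧ ratio f ≤ 0.616 := by
  refine ⟨fh hA, isStarlike good_hA (by simp [hA, qd]), ?_, ?_⟩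
  · have hrad : rad (fh hA) ≤ 49 / 100 := by
      apply Real.sSup_le _ (by norm_num)
      rintro r ⟨hr0, hr1, hconv⟩
      by_contra hcon
      push Not at hcon
      have := good_hA.kap_nonneg_of_convex realSym_hA hr1 (by norm_num) hcon hconv
      have h2 := kap_hA
      push_cast at this h2
      linarith
    exact hrad.trans_lt (by norm_num)
  · rw [ratio_eq good_hA]
    exact rho_hA

theorem ratio_nonneg (f : ℂ → ℂ) : 0 ≤ ratio f := by
  unfold ratio dStar dOmit
  apply div_nonneg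
  · split_ifs
    · apply Real.sInf_nonneg
      rintro _ ⟨w, -, rfl⟩
      exact norm_nonneg _
    · apply Real.sInf_nonneg
      rintro _ ⟨w, -, rfl⟩
      exact norm_nonneg _
  · apply Real.sInf_nonneg
    rintro _ ⟨w, -, rfl⟩
    exact norm_nonneg _

/-- the main theorem -/
theorem main :
    (∀ b : ℝ, 0 < b → b < 1 →
      (∀ z ∈ ball (0 : ℂ) 1, 1 + 2 * (2 * (b : ℂ) ^ 2 - 1) * z + z ^ 2 ∈ Complex.slitPlane ∧
        0 < (base₁ b z).re ∧ 0 < (base₂ b z).re) ∧
      IsStarlike (suffridge b) ∧ 0.6163 ≤ ratio (suffridge b)) ∧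
    (∃ f, IsStarlike f ∧ r₁ f < 1 ∧ ratio f ≤ 0.616) ∧
    sInf {x | ∃ f, IsStarlike f ∧ x = ratio f} ≤ 0.616 ∧
    0.6163 ≤ sInf {x | ∃ b : ℝ, 0 < b ∧ b < 1 ∧ x = ratio (suffridge b)} := by
  have h1 : ∀ b : ℝ, 0 < b → b < 1 → 0.6163 ≤ ratio (suffridge b) := fun b hb0 hb1 =>
    exp_bd.le.trans (suffridge_spec hb0.le hb1.le).2
  refine ⟨fun b hb0 hb1 => ⟨fun z hz => ⟨?_, ?_, ?_⟩, (suffridge_spec hb0.le hb1.le).1,
    h1 b hb0 hb1⟩, example_spec, ?_, ?_⟩
  · rw [← qd_cb]
    exact qd_mem (abs_cb hb0.le hb1.le) hz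
  · rw [base₁_eq]; exact Ab_re_pos hb0.le hb1.le hz
  · rw [base₂_eq]; exact Bb_re_pos hb0.le hb1.le hz
  · obtain ⟨f, hf, -, h⟩ := example_spec
    refine le_trans (csInf_le ?_ ⟨f, hf, rfl⟩) h
    refine ⟨0, ?_⟩
    rintro x ⟨f, -, rfl⟩
    exact ratio_nonneg f
  · apply le_csInf
    · exact ⟨_, 1 / 2, by norm_num, by norm_num, rfl⟩
    · rintro x ⟨b, hb0, hb1, rfl⟩
      exact h1 b hb0 hb1

end Pool.Agent.SchildOwn
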